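import Pool.Agent.H59.L.S8.H176.DT.Stm3
import Pool.Agent.H59.L.S8.H971.DT2.Prod

/-!
# DT3-ALL: all polynomials are dominated by a transcendental key polynomial

A polynomial `f` divides a nonzero polynomial in `ψ = ϕ ^ N` with constant coefficients, because
`E[X]` is integral over `E[ψ]`. The latter is dominated, and factors of dominated polynomials are
dominated.
-/

set_option autoImplicit false

universe u

namespace Pool.Agent.Y779.DT3

open Pool.Agent.H176.DT Polynomial

section

variable {E : Type u} [Field E]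

/-- every nonzero polynomial divides a nonzero polynomial in `ψ` -/
theorem exists_mult {ψ : E[X]} (hm : ψ.Monic) (hd : 0 < ψ.natDegree) {f : E[X]} (hf : f ≠ 0) :
    ∃ h g : E[X], h ≠ 0 ∧ f * h = aeval ψ g := by
  classical
  set S := Algebra.adjoin E {ψ} with hS
  have hψ : ψ ∈ S := Algebra.subset_adjoin rfl
  -- `X` is integral
  have hX : IsIntegral S (X : E[X]) := by
    refine ⟨ψ.map (algebraMap E S) - C ⟨ψ, hψ⟩, ?_, ?_⟩
    · apply (hm.map _).sub_of_left
      rw [hm.degree_map]
      exact degree_C_le.trans_lt (natDegree_pos_iff_degree_pos.1 hd)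
    · rw [eval₂_sub, eval₂_map, eval₂_C]
      have h1 : (algebraMap S E[X]).comp (algebraMap E S) = C := rfl
      rw [h1, eval₂_C_X]
      exact sub_self ψ
  have hall : ∀ f : E[X], IsIntegral S f := by
    intro f
    induction f using Polynomial.induction_on' with
    | add p q hp hq => exact hp.add hq
    | monomial n a =>
      rw [← C_mul_X_pow_eq_monomial]
      refine IsIntegral.mul ?_ (hX.pow n)
      have : (C a : E[X]) = algebraMap S E[X] (algebraMap E S a) := rfl
      rw [this]
      exact isIntegral_algebraMap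
  obtain ⟨s, hs, h, hsh⟩ := (hall f).isAlgebraic.exists_nonzero_dvd
    (mem_nonZeroDivisors_of_ne_zero hf)
  have h1 : ((s : S) : E[X]) ∈ Algebra.adjoin E {ψ} := s.2
  rw [Algebra.adjoin_singleton_eq_range_aeval] at h1
  obtain ⟨g, hg⟩ := h1
  refine ⟨h, g, ?_, ?_⟩
  · rintro rfl
    rw [mul_zero] at hsh
    apply hs
    exact Subtype.ext hsh
  · rw [← hsh]
    exact hg.symm

end

section

variable {E F : Type u} [Field E] [Field F] [Algebra E F] {V : ValuationSubring F}

/-- first case: the values of the powers are different -/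
theorem dom_one {y : F} (hy : ∀ N : ℕ, 0 < N → ∀ a : E,
    V.valuation (y ^ N) ≠ V.valuation (algebraMap E F a)) (g : E[X]) (j : ℕ) :
    V.valuation (algebraMap E F (g.coeff j) * y ^ j) ≤ V.valuation (aeval y g) := by
  classical
  by_cases hj : g.coeff j = 0
  · rw [hj, map_zero, zero_mul, map_zero]
    exact zero_le
  have hy0 : y ≠ 0 := by
    rintro rfl
    exact hy 1 one_pos 0 (by rw [pow_one, map_zero, map_zero, map_zero])
  have hdis : ∀ i ∈ g.support, ∀ k ∈ g.support, i < k →
      V.valuation (algebraMap E F (g.coeff i) * y ^ i) ≠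
        V.valuation (algebraMap E F (g.coeff k) * y ^ k) := by
    intro i hi k hk hik he
    rw [mem_support_iff] at hi hk
    apply hy (k - i) (by omega) (g.coeff i / g.coeff k)
    have hyi : V.valuation (y ^ i) ≠ 0 := by
      rw [Ne, map_eq_zero]
      exact pow_ne_zero _ hy0
    have hk' : V.valuation (algebraMap E F (g.coeff k)) ≠ 0 := by
      rw [Ne, map_eq_zero, map_eq_zero]
      exact hk
    have e : y ^ k = y ^ (k - i) * y ^ i := by rw [← pow_add, Nat.sub_add_cancel hik.le]
    rw [e, map_mul, map_mul, map_mul, ← mul_assoc] at he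
    have h1 := mul_right_cancel₀ hyi he
    rw [map_div₀, map_div₀, h1, mul_div_cancel_left₀ _ hk']
  obtain ⟨i, hi, hmax⟩ := Finset.exists_max_image g.support
    (fun i => V.valuation (algebraMap E F (g.coeff i) * y ^ i)) ⟨j, mem_support_iff.2 hj⟩
  have hlt : ∀ k ∈ g.support.erase i, V.valuation (algebraMap E F (g.coeff k) * y ^ k) <
      V.valuation (algebraMap E F (g.coeff i) * y ^ i) := by
    intro k hk
    rw [Finset.mem_erase] at hk
    refine lt_of_le_of_ne (hmax k hk.2) ?_
    rcases lt_or_gt_of_ne hk.1 with h | h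
    · exact hdis k hk.2 i hi h
    · exact (hdis i hi k hk.2 h).symm
  have hpos : V.valuation (algebraMap E F (g.coeff i) * y ^ i) ≠ 0 := by
    rw [Ne, map_eq_zero, mul_eq_zero, map_eq_zero, not_or]
    exact ⟨mem_support_iff.1 hi, pow_ne_zero _ hy0⟩
  have hsum : aeval y g = algebraMap E F (g.coeff i) * y ^ i +
      ∑ k ∈ g.support.erase i, algebraMap E F (g.coeff k) * y ^ k := by
    rw [Finset.add_sum_erase _ (fun k => algebraMap E F (g.coeff k) * y ^ k) hi, aeval_def,
      eval₂_eq_sum, Polynomial.sum]
  have hrest := V.valuation.map_sum_lt hpos hlt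
  rw [hsum, Valuation.map_add_eq_of_lt_left _ hrest]
  exact hmax j (mem_support_iff.2 hj)

/-- second case: the residue is transcendental -/
theorem dom_two {y : F} (h1 : V.valuation y = 1)
    (hy : ∀ g : E[X], g.Monic → (∀ i, algebraMap E F (g.coeff i) ∈ V) →
      ¬ V.valuation (aeval y g) < 1) (g : E[X]) (j : ℕ) :
    V.valuation (algebraMap E F (g.coeff j)) ≤ V.valuation (aeval y g) := by
  classical
  by_contra hcon
  push Not at hcon
  have hj : g.coeff j ≠ 0 := by
    intro h
    rw [h, map_zero, map_zero] at hcon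
    exact absurd hcon (not_lt.2 zero_le)
  obtain ⟨i1, hi1, hmax⟩ := Finset.exists_max_image g.support
    (fun i => V.valuation (algebraMap E F (g.coeff i))) ⟨j, mem_support_iff.2 hj⟩
  set μ := V.valuation (algebraMap E F (g.coeff i1)) with hμ
  have hle : ∀ i, V.valuation (algebraMap E F (g.coeff i)) ≤ μ := by
    intro i
    by_cases hi : g.coeff i = 0
    · rw [hi, map_zero, map_zero]
      exact zero_le
    · exact hmax i (mem_support_iff.2 hi)
  have hlt : V.valuation (aeval y g) < μ := hcon.trans_le (hle j)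
  -- the last index of a largest coefficient
  set T := g.support.filter fun i => V.valuation (algebraMap E F (g.coeff i)) = μ with hT
  have hTne : T.Nonempty := ⟨i1, by rw [hT, Finset.mem_filter]; exact ⟨hi1, hμ.symm⟩⟩
  set t := T.max' hTne with ht
  have htT : t ∈ T := Finset.max'_mem _ _
  rw [hT, Finset.mem_filter, mem_support_iff] at htT
  obtain ⟨ht0, htμ⟩ := htT
  have hgt : ∀ i, t < i → V.valuation (algebraMap E F (g.coeff i)) < μ := by
    intro i hi
    refine lt_of_le_of_ne (hle i) fun he => ?_
    have hi0 : g.coeff i ≠ 0 := by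
      intro h
      rw [h, map_zero, map_zero] at he
      rw [← he] at hlt
      exact absurd hlt (not_lt.2 zero_le)
    have : i ∈ T := by
      rw [hT, Finset.mem_filter, mem_support_iff]
      exact ⟨hi0, he⟩
    exact absurd (Finset.le_max' _ _ this) (not_le.2 hi)
  have hμ0 : μ ≠ 0 := by
    intro h
    rw [h] at hlt
    exact absurd hlt (not_lt.2 zero_le)
  -- the monic polynomial
  set h : E[X] := X ^ t + ∑ i ∈ Finset.range t, C (g.coeff i / g.coeff t) * X ^ i with hh
  have hdeg : (∑ i ∈ Finset.range t, C (g.coeff i / g.coeff t) * X ^ i : E[X]).degree < t := by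
    refine (degree_sum_le _ _).trans_lt ((Finset.sup_lt_iff (WithBot.bot_lt_coe t)).2 ?_)
    intro i hi
    refine (degree_C_mul_X_pow_le _ _).trans_lt ?_
    exact WithBot.coe_lt_coe.2 (Finset.mem_range.1 hi)
  have hmon : h.Monic := monic_X_pow_add hdeg
  have hcoef : ∀ i, algebraMap E F (h.coeff i) ∈ V := by
    intro i
    rw [← V.valuation_le_one_iff, hh, coeff_add, coeff_X_pow, finsetSum_coeff]
    simp only [coeff_C_mul_X_pow]
    rw [Finset.sum_ite_eq]
    have hq : ∀ i, V.valuation (algebraMap E F (g.coeff i / g.coeff t)) ≤ 1 := by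
      intro i
      rw [map_div₀, map_div₀, htμ]
      exact div_le_one_of_le₀ (hle i) zero_le
    split_ifs with a b
    · exfalso
      rw [Finset.mem_range] at b
      omega
    · rw [add_zero, map_one, map_one]
    · rw [zero_add]
      exact hq i
    · rw [add_zero, map_zero, map_zero]
      exact zero_le
  apply hy h hmon hcoef
  have e1 : aeval y h * algebraMap E F (g.coeff t) =
      ∑ i ∈ Finset.range (t + 1), algebraMap E F (g.coeff i) * y ^ i := by
    have ht0' : algebraMap E F (g.coeff t) ≠ 0 := by rwa [Ne, map_eq_zero]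
    rw [hh, map_add, map_pow, aeval_X, map_sum, Finset.sum_range_succ, add_mul, Finset.sum_mul,
      add_comm]
    congr 1
    · refine Finset.sum_congr rfl fun i _ => ?_
      rw [map_mul, map_pow, aeval_X, aeval_C, map_div₀]
      field_simp
    · ring
  have e2 : aeval y g = ∑ i ∈ Finset.range (t + 1), algebraMap E F (g.coeff i) * y ^ i +
      ∑ i ∈ g.support.filter (fun i => t < i), algebraMap E F (g.coeff i) * y ^ i := by
    rw [aeval_def, eval₂_eq_sum, Polynomial.sum]
    rw [← Finset.sum_filter_add_sum_filter_not g.support (fun i => t < i), add_comm]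
    congr 1
    apply Finset.sum_subset
    · intro i hi
      rw [Finset.mem_filter] at hi
      rw [Finset.mem_range]
      omega
    · intro i hi hn
      rw [Finset.mem_range] at hi
      rw [Finset.mem_filter, not_and_or] at hn
      rcases hn with hn | hn
      · rw [notMem_support_iff.1 hn, map_zero, zero_mul]
      · exact absurd (by omega : ¬ t < i) hn
  have e3 : V.valuation (∑ i ∈ g.support.filter (fun i => t < i),
      algebraMap E F (g.coeff i) * y ^ i) < μ := by
    refine V.valuation.map_sum_lt hμ0 fun i hi => ?_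
    rw [Finset.mem_filter] at hi
    rw [map_mul, map_pow, h1, one_pow, mul_one]
    exact hgt i hi.2
  have e4 : V.valuation (aeval y h * algebraMap E F (g.coeff t)) < μ := by
    have : aeval y h * algebraMap E F (g.coeff t) = aeval y g -
        ∑ i ∈ g.support.filter (fun i => t < i), algebraMap E F (g.coeff i) * y ^ i := by
      rw [e1, e2, add_sub_cancel_right]
    rw [this]
    exact (V.valuation.map_sub _ _).trans_lt (max_lt hlt e3)
  rw [map_mul, htμ] at e4
  by_contra hge
  push Not at hge
  exact absurd e4 (not_lt.2 (le_mul_of_one_le_left zero_le hge))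

end

/-- the power of the key polynomial -/
theorem exists_pow {E F : Type u} [Field E] [Field F] [Algebra E F] (V : ValuationSubring F) (θ : F)
    (ϕ : E[X]) (hNA : NA V θ ϕ) : ∃ N : ℕ, 0 < N ∧ ∀ (g : E[X]) (j : ℕ),
      V.valuation (algebraMap E F (g.coeff j) * aeval θ ϕ ^ (N * j)) ≤
        V.valuation (aeval (aeval θ ϕ ^ N) g) := by
  rcases hNA with h | ⟨N, a, hN, ha, hv, hg⟩
  · refine ⟨1, one_pos, fun g j => ?_⟩
    have := dom_one h g j
    rwa [one_mul, pow_one]
  · refine ⟨N, hN, fun g j => ?_⟩
    set y : F := aeval θ ϕ ^ N * (algebraMap E F a)⁻¹ with hy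
    have ha' : algebraMap E F a ≠ 0 := by rwa [Ne, map_eq_zero]
    have hva : V.valuation (algebraMap E F a) ≠ 0 := by rwa [Ne, map_eq_zero]
    have hy1 : V.valuation y = 1 := by
      rw [hy, map_mul, map_inv₀, hv, mul_inv_cancel₀ hva]
    have hya : aeval θ ϕ ^ N = algebraMap E F a * y := by
      rw [hy]; field_simp
    have h1 := dom_two hy1 hg (g.comp (C a * X)) j
    have e : aeval y (C a * X) = algebraMap E F a * y := by rw [map_mul, aeval_C, aeval_X]
    rw [comp_C_mul_X_coeff, aeval_comp, e, ← hya] at h1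
    refine le_trans (le_of_eq ?_) h1
    rw [pow_mul, hya, mul_pow, ← mul_assoc, map_mul V.valuation _ (y ^ j), map_pow V.valuation y,
      hy1, one_pow, mul_one, map_mul (algebraMap E F), map_pow (algebraMap E F)]

theorem all : S3_all.{u} := by
  intro E F _ _ _ V θ ϕ n β hθ hK hNA f
  have hϕ : ϕ ≠ 0 := hK.monic.ne_zero
  have hbot : (0 : E[X]).degree < ϕ.degree := by
    rw [degree_zero]
    exact bot_lt_iff_ne_bot.2 (degree_ne_bot.2 hϕ)
  by_cases hf : f = 0
  · refine ⟨0, fun _ => 0, ⟨fun _ => hbot, ?_⟩, fun k hk => absurd hk (by omega)⟩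
    rw [hf]; simp
  obtain ⟨N, hN, hdom⟩ := exists_pow V θ ϕ hNA
  have hm : (ϕ ^ N).Monic := hK.monic.pow N
  have hd : 0 < (ϕ ^ N).natDegree := by
    rw [natDegree_pow]
    exact Nat.mul_pos hN hK.deg
  obtain ⟨h, g, hh, hfg⟩ := exists_mult hm hd hf
  refine Pool.Agent.H971.DT2.prod' V θ ϕ n β hθ hK f h hf hh ?_
  rw [hfg]
  -- the expansion of a polynomial in `ϕ ^ N`
  refine ⟨N * (g.natDegree + 1), fun k => if N ∣ k then C (g.coeff (k / N)) else 0,
    ⟨fun k => ?_, ?_⟩, fun k _ => ?_⟩
  · split_ifs
    · exact degree_C_le.trans_lt (natDegree_pos_iff_degree_pos.1 hK.deg)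
    · exact hbot
  · have e1 : aeval (ϕ ^ N) g = ∑ j ∈ Finset.range (g.natDegree + 1),
        C (g.coeff j) * ϕ ^ (N * j) := by
      rw [aeval_eq_sum_range]
      refine Finset.sum_congr rfl fun j _ => ?_
      rw [smul_eq_C_mul, pow_mul]
    rw [e1]
    symm
    rw [← Finset.sum_filter_of_ne (p := fun k => N ∣ k) (fun k _ hk => by
      by_contra hn
      exact hk (by rw [if_neg hn, zero_mul]))]
    refine Finset.sum_bij' (fun k _ => k / N) (fun j _ => N * j) ?_ ?_ ?_ ?_ ?_
    · intro k hk
      rw [Finset.mem_filter, Finset.mem_range] at hk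
      rw [Finset.mem_range]
      exact Nat.div_lt_of_lt_mul hk.1
    · intro j hj
      rw [Finset.mem_range] at hj
      rw [Finset.mem_filter, Finset.mem_range]
      exact ⟨(Nat.mul_lt_mul_left hN).2 hj, dvd_mul_right _ _⟩
    · intro k hk
      rw [Finset.mem_filter] at hk
      exact Nat.mul_div_cancel' hk.2
    · intro j _
      exact Nat.mul_div_cancel_left j hN
    · intro k hk
      rw [Finset.mem_filter] at hk
      rw [if_pos hk.2, Nat.mul_div_cancel' hk.2]
  · have e2 : aeval θ (aeval (ϕ ^ N) g) = aeval (aeval θ ϕ ^ N) g := by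
      rw [← map_pow, ← aeval_algHom_apply]
    rw [e2]
    dsimp only
    split_ifs with hk
    · obtain ⟨j, rfl⟩ := hk
      rw [Nat.mul_div_cancel_left j hN, map_mul, aeval_C, map_pow]
      exact hdom g j
    · rw [zero_mul, map_zero, map_zero]
      exact zero_le

end Pool.Agent.Y779.DT3
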